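import Pool.Agent.Helper15_UR.MOM

/-!
# Module CLOSED
-/

namespace Pool.Agent.Helper21_UR.H15

open Complex MeasureTheory Set Filter Topology

/-- truncation of an integral with exponentially small tails -/
theorem trunc {f : ℝ → ℂ} (hf : Integrable f) {M b : ℝ} (hb : 0 < b)
    (h : ∀ s : ℝ, 5 ≤ |s| → ‖f s‖ ≤ M * Real.exp (-b * (|s| - 5))) :
    ‖(∫ s in (-5 : ℝ)..5, f s) - ∫ s, f s‖ ≤ 2 * (M / b) := by
  have hexp : ∫ s in Ioi (5 : ℝ), M * Real.exp (-b * (s - 5)) = M / b := by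
    have e : ∀ s : ℝ, M * Real.exp (-b * (s - 5)) = M * Real.exp (b * 5) * Real.exp (-b * s) := by
      intro s
      rw [mul_assoc, ← Real.exp_add]
      congr 2
      ring
    simp_rw [e]
    rw [integral_const_mul, integral_exp_mul_Ioi (by linarith) 5]
    have h1 : Real.exp (b * 5) * Real.exp (-(b * 5)) = 1 := by
      rw [← Real.exp_add]; simp
    field_simp
    linear_combination M * h1
  have hint : IntegrableOn (fun s : ℝ => M * Real.exp (-b * (s - 5))) (Ioi 5) := by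
    have e : (fun s : ℝ => M * Real.exp (-b * (s - 5))) =
        fun s => M * Real.exp (b * 5) * Real.exp (-b * s) := by
      funext s
      rw [mul_assoc, ← Real.exp_add]
      congr 2
      ring
    rw [e]
    exact (integrableOn_exp_mul_Ioi (by linarith) 5).const_mul _
  have h1 : ‖∫ s in Ioi (5 : ℝ), f s‖ ≤ M / b := by
    rw [← hexp]
    refine norm_integral_le_of_norm_le hint ?_
    filter_upwards [ae_restrict_mem measurableSet_Ioi] with s hs
    have h5 : (5 : ℝ) ≤ |s| := le_trans (le_of_lt hs) (le_abs_self s)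
    have h6 := h s h5
    rwa [abs_of_pos (by linarith [mem_Ioi.mp hs] : (0 : ℝ) < s)] at h6
  have h2 : ‖∫ s in Iic (-5 : ℝ), f s‖ ≤ M / b := by
    have e : ∫ s in Iic (-5 : ℝ), f s = ∫ s in Ioi (5 : ℝ), f (-s) := by
      have := integral_comp_neg_Iic (-5 : ℝ) (fun s => f (-s))
      simp only [neg_neg] at this
      exact this
    rw [e, ← hexp]
    refine norm_integral_le_of_norm_le hint ?_
    filter_upwards [ae_restrict_mem measurableSet_Ioi] with s hs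
    have h5 : (5 : ℝ) ≤ |-s| := by
      rw [abs_neg]; exact le_trans (le_of_lt hs) (le_abs_self s)
    have h6 := h (-s) h5
    rwa [abs_neg, abs_of_pos (by linarith [mem_Ioi.mp hs] : (0 : ℝ) < s)] at h6
  have h3 : ∫ s, f s = (∫ s in Iic (-5 : ℝ), f s) + ((∫ s in (-5 : ℝ)..5, f s) +
      ∫ s in Ioi (5 : ℝ), f s) := by
    rw [intervalIntegral.integral_interval_add_Ioi hf.integrableOn hf.integrableOn]
    have := integral_add_compl (μ := (volume : Measure ℝ)) (measurableSet_Iic (a := (-5 : ℝ))) hf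
    rw [compl_Iic] at this
    exact this.symm
  rw [h3]
  have e : (∫ s in (-5 : ℝ)..5, f s) - ((∫ s in Iic (-5 : ℝ), f s) +
      ((∫ s in (-5 : ℝ)..5, f s) + ∫ s in Ioi (5 : ℝ), f s)) =
      -(∫ s in Iic (-5 : ℝ), f s) - ∫ s in Ioi (5 : ℝ), f s := by ring
  rw [e]
  refine (norm_sub_le _ _).trans ?_
  rw [norm_neg]
  linarith

/-- the density as a combination of the `gM` -/
theorem comb_integral (h : SechStatement) (x c0 c1 c2 c3 : ℝ) :
    Integrable (fun s => (c0 : ℂ) * gM 0 x s + c1 * gM 1 x s + c2 * gM 2 x s + c3 * gM 3 x s) ∧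
    ∫ s, ((c0 : ℂ) * gM 0 x s + c1 * gM 1 x s + c2 * gM 2 x s + c3 * gM 3 x s) =
      ((Fr x * (c0 + c1 * (-(1 / 2) * Tr x) + c2 * (-(1 / 4) + (1 / 2) * Tr x ^ 2) +
        c3 * ((5 / 8) * Tr x - (3 / 4) * Tr x ^ 3)) : ℝ) : ℂ) := by
  have i0 := (integrable_gM 0 x).const_mul (c0 : ℂ)
  have i1 := (integrable_gM 1 x).const_mul (c1 : ℂ)
  have i2 := (integrable_gM 2 x).const_mul (c2 : ℂ)
  have i3 := (integrable_gM 3 x).const_mul (c3 : ℂ)
  refine ⟨((i0.add i1).add i2).add i3, ?_⟩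
  have a3 : ∫ s, ((c0 : ℂ) * gM 0 x s + c1 * gM 1 x s + c2 * gM 2 x s + c3 * gM 3 x s) =
      (∫ s, ((c0 : ℂ) * gM 0 x s + c1 * gM 1 x s + c2 * gM 2 x s)) + ∫ s, (c3 : ℂ) * gM 3 x s :=
    integral_add ((i0.add i1).add i2) i3
  have a2 : ∫ s, ((c0 : ℂ) * gM 0 x s + c1 * gM 1 x s + c2 * gM 2 x s) =
      (∫ s, ((c0 : ℂ) * gM 0 x s + c1 * gM 1 x s)) + ∫ s, (c2 : ℂ) * gM 2 x s :=
    integral_add (i0.add i1) i2
  have a1 : ∫ s, ((c0 : ℂ) * gM 0 x s + c1 * gM 1 x s) =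
      (∫ s, ((c0 : ℂ) * gM 0 x s)) + ∫ s, (c1 : ℂ) * gM 1 x s :=
    integral_add i0 i1
  rw [a3, a2, a1,
    integral_const_mul, integral_const_mul, integral_const_mul, integral_const_mul]
  have e0 : ∫ s, gM 0 x s = MM 0 x := rfl
  have e1 : ∫ s, gM 1 x s = MM 1 x := rfl
  have e2 : ∫ s, gM 2 x s = MM 2 x := rfl
  have e3 : ∫ s, gM 3 x s = MM 3 x := rfl
  rw [e0, e1, e2, e3, MM_zero h, MM_one h, MM_two h, MM_three h]
  push_cast
  ring

theorem Fr_eq {x y : ℝ} (hy : y = Real.exp (-x)) : Fr x = Real.sqrt y / (1 + y) := by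
  have h1 : Real.sqrt y = Real.exp (-(x / 2)) := by
    rw [hy, Real.sqrt_eq_iff_mul_self_eq (Real.exp_pos _).le (Real.exp_pos _).le, ← Real.exp_add]
    congr 1; ring
  have h2 : y = Real.exp (-(x / 2)) * Real.exp (-(x / 2)) := by
    rw [hy, ← Real.exp_add]; congr 1; ring
  have h3 : Real.exp (x / 2) * Real.exp (-(x / 2)) = 1 := by
    rw [← Real.exp_add]; simp
  unfold Fr
  rw [h1, h2, Real.cosh_eq, div_eq_div_iff (by positivity) (by positivity)]
  linear_combination -h3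

theorem Tr_eq {x y : ℝ} (hy : y = Real.exp (-x)) : Tr x = (1 - y) / (1 + y) := by
  have h2 : y = Real.exp (-(x / 2)) * Real.exp (-(x / 2)) := by
    rw [hy, ← Real.exp_add]; congr 1; ring
  have h3 : Real.exp (x / 2) * Real.exp (-(x / 2)) = 1 := by
    rw [← Real.exp_add]; simp
  unfold Tr
  rw [h2, Real.cosh_eq, Real.sinh_eq, div_eq_div_iff (by positivity) (by positivity)]
  linear_combination (Real.exp (-(x / 2))) * h3

theorem norm_mainD_le {κ ch x s : ℝ} (hκ : 0 ≤ κ) (hκ2 : κ ≤ 3 / 2) (hh : |ch + κ| ≤ 1 / 2)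
    (hs : 5 ≤ |s|) : ‖mainD κ ch x s‖ ≤ 1 / 4000 * Real.exp (-(12 / 5) * (|s| - 5)) := by
  unfold mainD
  have hv : ‖vs κ‖ = 1 := by
    unfold vs
    split_ifs <;> simp
  have hσ : ‖sg κ s‖ ≤ |s| + 3 / 2 := by
    unfold sg
    refine (norm_sub_le _ _).trans ?_
    rw [norm_mul, norm_I, mul_one, Complex.norm_real, Complex.norm_real, Real.norm_eq_abs,
      Real.norm_eq_abs, abs_of_nonneg hκ]
    linarith
  have hβ : ‖bt κ ch s‖ ≤ |s| + 1 / 2 := by
    unfold bt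
    refine (norm_add_le _ _).trans ?_
    rw [norm_mul, norm_I, mul_one, Complex.norm_real, Complex.norm_real, Real.norm_eq_abs,
      Real.norm_eq_abs]
    linarith
  have he : ‖cexp (-(I * x * s))‖ = 1 := by
    rw [Complex.norm_exp]; simp
  rw [cosh_cast, norm_div, norm_mul, norm_mul, norm_mul, norm_pow, he, hv, one_mul, one_mul,
    Complex.norm_real, Real.norm_of_nonneg (two_cosh_pos s).le, div_le_iff₀ (two_cosh_pos s)]
  have h1 : ‖sg κ s‖ * ‖bt κ ch s‖ ^ 2 ≤ (|s| + 3 / 2) * (|s| + 1 / 2) ^ 2 := by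
    apply mul_le_mul hσ _ (by positivity) (by positivity)
    exact pow_le_pow_left₀ (norm_nonneg _) hβ 2
  have h2 : (|s| + 3 / 2) * (|s| + 1 / 2) ^ 2 ≤ 1.6 * |s| ^ 3 := by
    nlinarith [mul_nonneg (sub_nonneg.mpr hs) (sub_nonneg.mpr hs), sq_nonneg (|s| - 5),
      mul_nonneg (sub_nonneg.mpr hs) (sq_nonneg |s|)]
  have h3 : |s| ^ 3 ≤ 125 * Real.exp (3 / 5 * (|s| - 5)) := by
    have h4 : |s| / 5 ≤ Real.exp ((|s| - 5) / 5) := by
      have := Real.add_one_le_exp ((|s| - 5) / 5)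
      linarith
    have h5 : (|s| / 5) ^ 3 ≤ Real.exp ((|s| - 5) / 5) ^ 3 :=
      pow_le_pow_left₀ (by positivity) h4 3
    rw [← Real.exp_nat_mul] at h5
    have e : ((3 : ℕ) : ℝ) * ((|s| - 5) / 5) = 3 / 5 * (|s| - 5) := by push_cast; ring
    rw [e] at h5
    linarith
  have h6 : Real.exp (3 * (|s| - 5)) * 800000 ≤ 2 * Real.cosh (Real.pi * s) := by
    refine le_trans ?_ (two_cosh_ge s)
    have h7 : Real.exp (3 * |s|) ≤ Real.exp (Real.pi * |s|) := by
      apply Real.exp_le_exp.mpr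
      exact mul_le_mul_of_nonneg_right Real.pi_gt_three.le (abs_nonneg s)
    refine le_trans ?_ h7
    have e : Real.exp (3 * |s|) = Real.exp (3 * (|s| - 5)) * Real.exp 1 ^ 15 := by
      rw [← Real.exp_nat_mul, ← Real.exp_add]
      congr 1
      push_cast
      ring
    rw [e]
    apply mul_le_mul_of_nonneg_left _ (Real.exp_pos _).le
    have h8 := Real.exp_one_gt_d9
    calc (800000 : ℝ) ≤ 2.7182818283 ^ 15 := by norm_num
      _ ≤ Real.exp 1 ^ 15 := pow_le_pow_left₀ (by norm_num) h8.le 15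
  have h9 : Real.exp (-(12 / 5) * (|s| - 5)) * Real.exp (3 * (|s| - 5)) =
      Real.exp (3 / 5 * (|s| - 5)) := by
    rw [← Real.exp_add]; congr 1; ring
  calc ‖sg κ s‖ * ‖bt κ ch s‖ ^ 2 ≤ 1.6 * (125 * Real.exp (3 / 5 * (|s| - 5))) :=
        h1.trans (h2.trans (mul_le_mul_of_nonneg_left h3 (by norm_num)))
    _ = 1 / 4000 * Real.exp (-(12 / 5) * (|s| - 5)) * (Real.exp (3 * (|s| - 5)) * 800000) := by
        rw [← h9]; ring
    _ ≤ _ := mul_le_mul_of_nonneg_left h6 (by positivity)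

theorem mainD_half (ch x s : ℝ) : mainD (1 / 2) ch x s =
    (((ch + 1 / 2) ^ 2 / 2 : ℝ) : ℂ) * gM 0 x s + ((-((ch + 1 / 2) + (ch + 1 / 2) ^ 2) : ℝ) : ℂ) *
      gM 1 x s + ((1 / 2 + 2 * (ch + 1 / 2) : ℝ) : ℂ) * gM 2 x s + ((-1 : ℝ) : ℂ) * gM 3 x s := by
  unfold mainD gM vs sg bt
  rw [if_pos rfl]
  have hc : (2 * cosh ((Real.pi : ℂ) * s)) ≠ 0 := by
    rw [cosh_cast]
    exact_mod_cast (two_cosh_pos s).ne'
  rw [← mul_div_assoc, ← mul_div_assoc, ← mul_div_assoc, ← mul_div_assoc, ← add_div, ← add_div,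
    ← add_div]
  congr 1
  push_cast
  have h1 := I_sq
  have h3 : I ^ 3 = -I := by rw [pow_succ, h1]; ring
  have h4 : I ^ 4 = 1 := by
    have : I ^ 4 = (I ^ 2) ^ 2 := by ring
    rw [this, h1]; norm_num
  ring_nf
  rw [h1, h3, h4]
  ring

theorem mainD_three_half (x s : ℝ) : mainD (3 / 2) (-1) x s =
    ((-(3 / 8) : ℝ) : ℂ) * gM 0 x s + ((7 / 4 : ℝ) : ℂ) * gM 1 x s +
      ((-(5 / 2) : ℝ) : ℂ) * gM 2 x s + ((1 : ℝ) : ℂ) * gM 3 x s := by
  unfold mainD gM vs sg bt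
  rw [if_neg (by norm_num)]
  rw [← mul_div_assoc, ← mul_div_assoc, ← mul_div_assoc, ← mul_div_assoc, ← add_div, ← add_div,
    ← add_div]
  congr 1
  push_cast
  have h1 := I_sq
  have h3 : I ^ 3 = -I := by rw [pow_succ, h1]; ring
  have h4 : I ^ 4 = 1 := by
    have : I ^ 4 = (I ^ 2) ^ 2 := by ring
    rw [this, h1]; norm_num
  ring_nf
  rw [h1, h3, h4]
  ring

theorem closed (h : SechStatement) : ClosedStatement := by
  intro x _ y hy
  have hy0 : 0 < 1 + y := by rw [hy]; positivity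
  have key : ∀ (κ ch c0 c1 c2 c3 V : ℝ), 0 ≤ κ → κ ≤ 3 / 2 → |ch + κ| ≤ 1 / 2 →
      (∀ s : ℝ, mainD κ ch x s = (c0 : ℂ) * gM 0 x s + c1 * gM 1 x s + c2 * gM 2 x s +
        c3 * gM 3 x s) →
      Fr x * (c0 + c1 * (-(1 / 2) * Tr x) + c2 * (-(1 / 4) + (1 / 2) * Tr x ^ 2) +
        c3 * ((5 / 8) * Tr x - (3 / 4) * Tr x ^ 3)) = V →
      ‖(∫ s in (-5 : ℝ)..5, mainD κ ch x s) - (V : ℂ)‖ ≤ 1 / 1000 := by
    intro κ ch c0 c1 c2 c3 V h1 h2 h3 h4 h5
    obtain ⟨h6, h7⟩ := comb_integral h x c0 c1 c2 c3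
    have h8 : mainD κ ch x = fun s => (c0 : ℂ) * gM 0 x s + c1 * gM 1 x s + c2 * gM 2 x s +
        c3 * gM 3 x s := funext h4
    rw [h5] at h7
    rw [← h7, ← h8]
    rw [← h8] at h6
    refine (trunc h6 (M := 1 / 4000) (b := 12 / 5) (by norm_num)
      (fun s hs => norm_mainD_le h1 h2 h3 hs)).trans ?_
    norm_num
  refine ⟨?_, ?_, ?_⟩
  · refine key _ _ _ _ _ _ _ (by norm_num) (by norm_num) (by norm_num) (mainD_half (-3 / 10) x) ?_
    rw [Fr_eq hy, Tr_eq hy]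
    field_simp
    ring
  · refine key _ _ _ _ _ _ _ (by norm_num) (by norm_num) (by norm_num) (mainD_half (-1 / 2) x) ?_
    rw [Fr_eq hy, Tr_eq hy]
    field_simp
    ring
  · refine key _ _ _ _ _ _ _ (by norm_num) (by norm_num) (by norm_num) (mainD_three_half x) ?_
    rw [Fr_eq hy, Tr_eq hy]
    field_simp
    ring

end Pool.Agent.Helper21_UR.H15
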