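import Pool.Agent.Helper21_UR.Stmts

/-!
# Module COEFINT
-/

namespace Pool.Agent.Helper21_UR.H15

open Complex MeasureTheory

theorem tt_cont (t0 : ℝ) : Continuous fun θ : ℝ => tt t0 θ := by
  unfold tt
  fun_prop

theorem exp_int (n k : ℕ) (h : k ≠ n) :
    ∫ θ in (-Real.pi)..Real.pi, cexp (((n : ℂ) - k) * I * θ) = 0 := by
  have hc : ((n : ℂ) - k) * I ≠ 0 := by
    refine mul_ne_zero ?_ I_ne_zero
    rw [sub_ne_zero]
    exact_mod_cast h.symm
  rw [integral_exp_mul_complex hc, div_eq_zero_iff]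
  left
  rw [sub_eq_zero, Complex.exp_eq_exp_iff_exists_int]
  refine ⟨(n : ℤ) - k, ?_⟩
  push_cast
  ring

theorem coefint : CoefintStatement := by
  intro a F hF t0 ht0 n
  set r : ℝ := Real.exp (-t0) with hr
  have hr0 : 0 < r := Real.exp_pos _
  have hr1 : r < 1 := by
    rw [hr, Real.exp_lt_one_iff]
    linarith
  have hnorm : ∀ θ : ℝ, ‖cexp (-tt t0 θ)‖ = r := by
    intro θ
    rw [Complex.norm_exp]
    simp [tt, hr]
  have hnorm2 : ∀ θ : ℝ, ‖cexp ((n : ℂ) * tt t0 θ)‖ = Real.exp (n * t0) := by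
    intro θ
    rw [Complex.norm_exp]
    simp [tt]
  have hq : ∀ θ : ℝ, HasSum (fun k : ℕ => a k * cexp (-tt t0 θ) ^ k) (F (cexp (-tt t0 θ))) :=
    fun θ => hF _ (Complex.exp_ne_zero _) (by rw [hnorm]; exact hr1)
  have hsum : Summable fun k : ℕ => ‖a k‖ * r ^ k := by
    have h1 := (hF (r : ℂ) (by exact_mod_cast hr0.ne') (by
      rw [Complex.norm_real, Real.norm_eq_abs, abs_of_pos hr0]; exact hr1)).summable
    have h2 := h1.norm
    refine h2.congr fun k => ?_
    rw [norm_mul, norm_pow, Complex.norm_real, Real.norm_eq_abs, abs_of_pos hr0]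
  have key := intervalIntegral.hasSum_integral_of_dominated_convergence (μ := volume)
    (F := fun (k : ℕ) (θ : ℝ) => a k * cexp (-tt t0 θ) ^ k * cexp ((n : ℂ) * tt t0 θ))
    (f := fun θ => F (cexp (-tt t0 θ)) * cexp ((n : ℂ) * tt t0 θ)) (a := -Real.pi) (b := Real.pi)
    (bound := fun k _ => ‖a k‖ * r ^ k * Real.exp (n * t0)) ?_ ?_ ?_ ?_ ?_
  · have e : ∀ k : ℕ, ∫ θ in (-Real.pi)..Real.pi,
        a k * cexp (-tt t0 θ) ^ k * cexp ((n : ℂ) * tt t0 θ) =
        if k = n then 2 * (Real.pi : ℂ) * a n else 0 := by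
      intro k
      have e1 : ∀ θ : ℝ, a k * cexp (-tt t0 θ) ^ k * cexp ((n : ℂ) * tt t0 θ) =
          a k * cexp (((n : ℂ) - k) * t0) * cexp (((n : ℂ) - k) * I * θ) := by
        intro θ
        rw [← Complex.exp_nat_mul, mul_assoc, mul_assoc, ← Complex.exp_add, ← Complex.exp_add]
        congr 2
        unfold tt
        ring
      simp_rw [e1]
      rw [intervalIntegral.integral_const_mul]
      split_ifs with h
      · subst h
        simp
        ring
      · rw [exp_int n k h, mul_zero]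
    simp_rw [e] at key
    have h1 : HasSum (fun k : ℕ => if k = n then 2 * (Real.pi : ℂ) * a n else 0)
        (2 * (Real.pi : ℂ) * a n) := hasSum_ite_eq n _
    rw [← h1.unique key]
    have hpi : (Real.pi : ℂ) ≠ 0 := by exact_mod_cast Real.pi_ne_zero
    field_simp
  · intro k
    have := tt_cont t0
    apply Continuous.aestronglyMeasurable
    fun_prop
  · intro k
    refine Filter.Eventually.of_forall fun θ _ => ?_
    rw [norm_mul, norm_mul, norm_pow, hnorm, hnorm2]
  · exact Filter.Eventually.of_forall fun θ _ => hsum.mul_right _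
  · exact intervalIntegrable_const
  · exact Filter.Eventually.of_forall fun θ _ => (hq θ).mul_right _

end Pool.Agent.Helper21_UR.H15
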