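import Pool.Agent.Helper15_UR.Mom1

/-!
# Module MOM
-/

namespace Pool.Agent.Helper21_UR.H15

open Complex MeasureTheory Set Filter Topology

theorem MM_zero (h : SechStatement) (x : ℝ) : MM 0 x = ((Fr x : ℝ) : ℂ) := by
  unfold MM gM Fr
  simp only [pow_zero, one_mul]
  exact h x

theorem MM_one (h : SechStatement) (x : ℝ) :
    MM 1 x = ((Fr x * (0 + -(1 / 2) * Tr x + 0 * Tr x ^ 2 + 0 * Tr x ^ 3 + 0 * Tr x ^ 4 +
      0 * Tr x ^ 5) : ℝ) : ℂ) := by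
  rw [MM_step (j := 0) (a0 := 1) (a1 := 0) (a2 := 0) (a3 := 0) (a4 := 0) (a5 := 0) (fun x => by
    rw [MM_zero h]; congr 1; ring) x]
  congr 1
  ring

theorem MM_two (h : SechStatement) (x : ℝ) :
    MM 2 x = ((Fr x * (-(1 / 4) + 0 * Tr x + (1 / 2) * Tr x ^ 2 + 0 * Tr x ^ 3 + 0 * Tr x ^ 4 +
      0 * Tr x ^ 5) : ℝ) : ℂ) := by
  rw [MM_step (MM_one h) x]
  congr 1
  ring

theorem MM_three (h : SechStatement) (x : ℝ) :
    MM 3 x = ((Fr x * (0 + (5 / 8) * Tr x + 0 * Tr x ^ 2 + -(3 / 4) * Tr x ^ 3 + 0 * Tr x ^ 4 +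
      0 * Tr x ^ 5) : ℝ) : ℂ) := by
  rw [MM_step (MM_two h) x]
  congr 1
  ring

theorem MM_four (h : SechStatement) (x : ℝ) :
    MM 4 x = ((Fr x * (5 / 16 + 0 * Tr x + -(7 / 4) * Tr x ^ 2 + 0 * Tr x ^ 3 +
      (3 / 2) * Tr x ^ 4 + 0 * Tr x ^ 5) : ℝ) : ℂ) := by
  rw [MM_step (MM_three h) x]
  congr 1
  ring

theorem MM_five (h : SechStatement) (x : ℝ) :
    MM 5 x = ((Fr x * (0 + -(61 / 32) * Tr x + 0 * Tr x ^ 2 + (45 / 8) * Tr x ^ 3 +
      0 * Tr x ^ 4 + -(15 / 4) * Tr x ^ 5) : ℝ) : ℂ) := by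
  rw [MM_step (MM_four h) x]
  congr 1
  ring

theorem MM_six (h : SechStatement) (x : ℝ) :
    MM 6 x = ((Fr x * (-(61 / 64) + (331 / 32) * Tr x ^ 2 - (165 / 8) * Tr x ^ 4 +
      (45 / 4) * Tr x ^ 6) : ℝ) : ℂ) := by
  rw [MM_step (MM_five h) x]
  congr 1
  ring

theorem MM_at_zero (k : ℕ) : MM (2 * k) 0 =
    (((-1) ^ k * ∫ s : ℝ, s ^ (2 * k) / (2 * Real.cosh (Real.pi * s)) : ℝ) : ℂ) := by
  unfold MM gM
  have e : ∀ s : ℝ, (-(I * (s : ℂ))) ^ (2 * k) * cexp (-(I * ((0 : ℝ) : ℂ) * s)) /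
      (2 * cosh ((Real.pi : ℂ) * s)) =
      (((-1) ^ k * (s ^ (2 * k) / (2 * Real.cosh (Real.pi * s))) : ℝ) : ℂ) := by
    intro s
    rw [cosh_cast]
    have h1 : (-(I * (s : ℂ))) ^ (2 * k) = (-1) ^ k * (s : ℂ) ^ (2 * k) := by
      rw [pow_mul, pow_mul, ← mul_pow]
      congr 1
      rw [neg_sq, mul_pow, I_sq]
    rw [h1]
    push_cast
    simp
    ring
  simp_rw [e]
  rw [← integral_const_mul]
  exact integral_complex_ofReal

theorem Fr_zero : Fr 0 = 1 / 2 := by simp [Fr]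
theorem Tr_zero : Tr 0 = 0 := by simp [Tr]

theorem mom (h : SechStatement) : MomStatement := by
  intro j μ hj
  refine ⟨integrable_pow j, ?_⟩
  rcases hj with hj | hj | hj | hj <;> obtain ⟨rfl, rfl⟩ := Prod.mk.inj hj
  · have h1 := MM_at_zero 0
    rw [mul_zero, MM_zero h, Fr_zero] at h1
    have h2 := Complex.ofReal_injective h1
    simp only [pow_zero, one_mul] at h2 ⊢
    exact h2.symm
  · have h1 := MM_at_zero 1
    rw [mul_one, MM_two h, Fr_zero, Tr_zero] at h1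
    have h2 := Complex.ofReal_injective h1
    linarith
  · have h1 := MM_at_zero 2
    rw [show 2 * 2 = 4 from rfl, MM_four h, Fr_zero, Tr_zero] at h1
    have h2 := Complex.ofReal_injective h1
    linarith
  · have h1 := MM_at_zero 3
    rw [show 2 * 3 = 6 from rfl, MM_six h, Fr_zero, Tr_zero] at h1
    have h2 := Complex.ofReal_injective h1
    linarith

end Pool.Agent.Helper21_UR.H15
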