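import Pool.Agent.Helper21_UR.Stmts

/-!
# Moments of the hyperbolic secant: derivatives of the Fourier transform
-/

namespace Pool.Agent.Helper21_UR.H15

open Complex MeasureTheory Set Filter Topology

theorem two_cosh_ge (s : ℝ) : Real.exp (Real.pi * |s|) ≤ 2 * Real.cosh (Real.pi * s) := by
  rw [← Real.cosh_abs, abs_mul, abs_of_pos Real.pi_pos, Real.cosh_eq]
  have := Real.exp_pos (-(Real.pi * |s|))
  linarith

theorem two_cosh_pos (s : ℝ) : 0 < 2 * Real.cosh (Real.pi * s) := by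
  have := Real.cosh_pos (Real.pi * s)
  positivity

theorem pow_le_exp (j : ℕ) (s : ℝ) : |s| ^ j ≤ j.factorial * Real.exp (Real.pi * |s|) := by
  have h1 := Real.pow_div_factorial_le_exp (|s|) (abs_nonneg s) j
  have h2 : Real.exp |s| ≤ Real.exp (Real.pi * |s|) := by
    apply Real.exp_le_exp.mpr
    have := Real.pi_gt_three
    nlinarith [abs_nonneg s]
  have h3 : (0 : ℝ) < j.factorial := by exact_mod_cast j.factorial_pos
  rw [div_le_iff₀ h3] at h1
  calc |s| ^ j ≤ Real.exp |s| * j.factorial := h1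
    _ ≤ Real.exp (Real.pi * |s|) * j.factorial := mul_le_mul_of_nonneg_right h2 h3.le
    _ = _ := mul_comm _ _

theorem major (j : ℕ) (s : ℝ) : |s| ^ j / (2 * Real.cosh (Real.pi * s)) ≤
    (j.factorial + (j + 2).factorial) * (1 + s ^ 2)⁻¹ := by
  have h0 := two_cosh_pos s
  have h1 := two_cosh_ge s
  rw [div_le_iff₀ h0, mul_assoc, mul_comm ((1 + s ^ 2)⁻¹), ← div_eq_mul_inv, ← mul_div_assoc,
    le_div_iff₀ (by positivity)]
  have h2 := pow_le_exp j s
  have h3 := pow_le_exp (j + 2) s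
  have h4 : |s| ^ j * (1 + s ^ 2) = |s| ^ j + |s| ^ (j + 2) := by
    rw [← sq_abs s]; ring
  rw [h4]
  calc |s| ^ j + |s| ^ (j + 2) ≤ j.factorial * Real.exp (Real.pi * |s|) +
        (j + 2).factorial * Real.exp (Real.pi * |s|) := add_le_add h2 h3
    _ = (j.factorial + (j + 2).factorial) * Real.exp (Real.pi * |s|) := by ring
    _ ≤ _ := mul_le_mul_of_nonneg_left h1 (by positivity)

theorem cont_cosh : Continuous fun s : ℝ => 2 * Real.cosh (Real.pi * s) := by fun_prop

theorem integrable_abs (j : ℕ) :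
    Integrable (fun s : ℝ => |s| ^ j / (2 * Real.cosh (Real.pi * s))) := by
  refine (integrable_inv_one_add_sq.const_mul ((j.factorial : ℝ) + (j + 2).factorial)).mono' ?_ ?_
  · apply Continuous.aestronglyMeasurable
    exact (continuous_abs.pow j).div cont_cosh (fun s => (two_cosh_pos s).ne')
  · refine Eventually.of_forall fun s => ?_
    rw [Real.norm_of_nonneg (div_nonneg (by positivity) (two_cosh_pos s).le)]
    exact major j s

theorem integrable_pow (j : ℕ) :
    Integrable (fun s : ℝ => s ^ j / (2 * Real.cosh (Real.pi * s))) := by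
  refine (integrable_abs j).mono' ?_ ?_
  · apply Continuous.aestronglyMeasurable
    exact (continuous_id.pow j).div cont_cosh (fun s => (two_cosh_pos s).ne')
  · refine Eventually.of_forall fun s => ?_
    rw [norm_div, norm_pow, Real.norm_eq_abs, Real.norm_of_nonneg (two_cosh_pos s).le]

/-- the integrands of the derivatives -/
noncomputable def gM (j : ℕ) (x s : ℝ) : ℂ :=
  (-(I * s)) ^ j * cexp (-(I * x * s)) / (2 * cosh ((Real.pi : ℂ) * s))

theorem cosh_cast (s : ℝ) : (2 * cosh ((Real.pi : ℂ) * s)) =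
    ((2 * Real.cosh (Real.pi * s) : ℝ) : ℂ) := by
  push_cast; rfl

theorem norm_gM (j : ℕ) (x s : ℝ) : ‖gM j x s‖ = |s| ^ j / (2 * Real.cosh (Real.pi * s)) := by
  unfold gM
  rw [cosh_cast, norm_div, norm_mul, norm_pow, Complex.norm_exp, norm_neg, norm_mul, norm_I,
    one_mul, Complex.norm_real, Complex.norm_real, Real.norm_eq_abs,
    Real.norm_of_nonneg (two_cosh_pos s).le]
  simp

theorem cont_gM (j : ℕ) (x : ℝ) : Continuous (gM j x) := by
  unfold gM
  refine Continuous.div (by fun_prop) (by fun_prop) ?_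
  intro s
  rw [cosh_cast]
  exact_mod_cast (two_cosh_pos s).ne'

theorem integrable_gM (j : ℕ) (x : ℝ) : Integrable (gM j x) := by
  refine (integrable_abs j).mono' (cont_gM j x).aestronglyMeasurable ?_
  exact Eventually.of_forall fun s => (norm_gM j x s).le

/-- derivatives of the Fourier transform -/
noncomputable def MM (j : ℕ) (x : ℝ) : ℂ := ∫ s : ℝ, gM j x s

theorem hasDerivAt_MM (j : ℕ) (x : ℝ) : HasDerivAt (MM j) (MM (j + 1) x) x := by
  have h := hasDerivAt_integral_of_dominated_loc_of_deriv_le (μ := (volume : Measure ℝ))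
    (F := fun x s => gM j x s) (F' := fun x s => gM (j + 1) x s) (x₀ := x)
    (bound := fun s => |s| ^ (j + 1) / (2 * Real.cosh (Real.pi * s))) (s := univ) univ_mem
    (Eventually.of_forall fun y => (cont_gM j y).aestronglyMeasurable) (integrable_gM j x)
    (cont_gM (j + 1) x).aestronglyMeasurable
    (Eventually.of_forall fun s y _ => (norm_gM (j + 1) y s).le) (integrable_abs (j + 1))
    (Eventually.of_forall fun s y _ => by
      unfold gM
      have h1 : HasDerivAt (fun y : ℝ => -(I * (y : ℂ) * s)) (-(I * s)) y := by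
        have h2 := (Complex.ofRealCLM.hasDerivAt (x := y)).const_mul I
        have h3 := (h2.mul_const (s : ℂ)).neg
        have e : -(I * Complex.ofRealCLM 1 * (s : ℂ)) = -(I * s) := by simp
        rw [e] at h3
        exact h3
      have h4 := (h1.cexp.const_mul ((-(I * (s : ℂ))) ^ j)).div_const (2 * cosh ((Real.pi : ℂ) * s))
      refine h4.congr_deriv ?_
      rw [pow_succ]
      ring)
  exact h.2

noncomputable def Fr (x : ℝ) : ℝ := 1 / (2 * Real.cosh (x / 2))
noncomputable def Tr (x : ℝ) : ℝ := Real.sinh (x / 2) / Real.cosh (x / 2)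

theorem half_deriv (x : ℝ) : HasDerivAt (fun x : ℝ => x / 2) (1 / 2) x :=
  (hasDerivAt_id x).div_const 2

theorem hasDerivAt_Fr (x : ℝ) : HasDerivAt Fr (-(1 / 2) * Tr x * Fr x) x := by
  have h0 := (Real.cosh_pos (x / 2)).ne'
  have h1 : HasDerivAt (fun x : ℝ => 2 * Real.cosh (x / 2)) (2 * (Real.sinh (x / 2) * (1 / 2))) x :=
    ((half_deriv x).cosh).const_mul 2
  have h2 := (hasDerivAt_const x (1 : ℝ)).div h1 (by positivity)
  refine h2.congr_deriv ?_
  unfold Tr Fr
  field_simp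
  ring

theorem hasDerivAt_Tr (x : ℝ) : HasDerivAt Tr ((1 / 2) * (1 - Tr x ^ 2)) x := by
  have h0 := (Real.cosh_pos (x / 2)).ne'
  have h1 := ((half_deriv x).sinh).div ((half_deriv x).cosh) h0
  refine h1.congr_deriv ?_
  unfold Tr
  field_simp

/-- one step of the recursion -/
theorem MM_step {j : ℕ} {a0 a1 a2 a3 a4 a5 : ℝ}
    (h : ∀ x, MM j x = ((Fr x * (a0 + a1 * Tr x + a2 * Tr x ^ 2 + a3 * Tr x ^ 3 + a4 * Tr x ^ 4 +
      a5 * Tr x ^ 5) : ℝ) : ℂ)) (x : ℝ) :
    MM (j + 1) x = ((Fr x * (-(1 / 2) * Tr x * (a0 + a1 * Tr x + a2 * Tr x ^ 2 + a3 * Tr x ^ 3 +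
      a4 * Tr x ^ 4 + a5 * Tr x ^ 5) + (1 / 2) * (1 - Tr x ^ 2) * (a1 + 2 * a2 * Tr x +
      3 * a3 * Tr x ^ 2 + 4 * a4 * Tr x ^ 3 + 5 * a5 * Tr x ^ 4)) : ℝ) : ℂ) := by
  have h1 := hasDerivAt_MM j x
  have h2 : MM j = fun x => ((Fr x * (a0 + a1 * Tr x + a2 * Tr x ^ 2 + a3 * Tr x ^ 3 +
      a4 * Tr x ^ 4 + a5 * Tr x ^ 5) : ℝ) : ℂ) := funext h
  rw [h2] at h1
  refine h1.unique ?_
  have hT := hasDerivAt_Tr x
  have h3 := (hasDerivAt_Fr x).mul ((((((hasDerivAt_const x a0).add (hT.const_mul a1)).add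
    ((hT.pow 2).const_mul a2)).add ((hT.pow 3).const_mul a3)).add ((hT.pow 4).const_mul a4)).add
    ((hT.pow 5).const_mul a5))
  have h4 := h3.ofReal_comp
  refine h4.congr_deriv ?_
  congr 1
  simp only [Nat.cast_ofNat, Nat.add_one_sub_one, Nat.reduceSub, pow_one, Pi.add_apply, zero_add,
    Pi.pow_apply]
  ring

end Pool.Agent.Helper21_UR.H15
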