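import Pool.Agent.Helper15_UR.Mom1

/-!
# Module QINT
-/

namespace Pool.Agent.Helper21_UR.H15

open Complex MeasureTheory Set Filter Topology

theorem int_poly_le (h : MomStatement) {f : ℝ → ℝ} {c0 c2 c4 c6 : ℝ} (h0 : ∀ s, 0 ≤ f s)
    (hf : ∀ s, f s ≤ c0 + c2 * s ^ 2 + c4 * s ^ 4 + c6 * s ^ 6) :
    ∫ s in (-5 : ℝ)..5, f s / (2 * Real.cosh (Real.pi * s)) ≤
      c0 / 2 + c2 / 8 + 5 * c4 / 32 + 61 * c6 / 128 := by
  obtain ⟨i0, m0⟩ := h 0 (1 / 2) (Or.inl rfl)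
  obtain ⟨i2, m2⟩ := h 2 (1 / 8) (Or.inr (Or.inl rfl))
  obtain ⟨i4, m4⟩ := h 4 (5 / 32) (Or.inr (Or.inr (Or.inl rfl)))
  obtain ⟨i6, m6⟩ := h 6 (61 / 128) (Or.inr (Or.inr (Or.inr rfl)))
  have j0 := i0.const_mul c0
  have j2 := i2.const_mul c2
  have j4 := i4.const_mul c4
  have j6 := i6.const_mul c6
  have jg : Integrable (fun s : ℝ => c0 * (s ^ 0 / (2 * Real.cosh (Real.pi * s))) +
      c2 * (s ^ 2 / (2 * Real.cosh (Real.pi * s))) + c4 * (s ^ 4 / (2 * Real.cosh (Real.pi * s))) +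
      c6 * (s ^ 6 / (2 * Real.cosh (Real.pi * s)))) := ((j0.add j2).add j4).add j6
  have hint : ∫ s : ℝ, (c0 * (s ^ 0 / (2 * Real.cosh (Real.pi * s))) +
      c2 * (s ^ 2 / (2 * Real.cosh (Real.pi * s))) + c4 * (s ^ 4 / (2 * Real.cosh (Real.pi * s))) +
      c6 * (s ^ 6 / (2 * Real.cosh (Real.pi * s)))) =
      c0 / 2 + c2 / 8 + 5 * c4 / 32 + 61 * c6 / 128 := by
    have a3 := integral_add ((j0.add j2).add j4) j6
    have a2 := integral_add (j0.add j2) j4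
    have a1 := integral_add j0 j2
    simp only [Pi.add_apply] at a3 a2 a1
    rw [a3, a2, a1, integral_const_mul, integral_const_mul, integral_const_mul,
      integral_const_mul, m0, m2, m4, m6]
    ring
  have hle : ∀ s : ℝ, f s / (2 * Real.cosh (Real.pi * s)) ≤
      c0 * (s ^ 0 / (2 * Real.cosh (Real.pi * s))) +
      c2 * (s ^ 2 / (2 * Real.cosh (Real.pi * s))) + c4 * (s ^ 4 / (2 * Real.cosh (Real.pi * s))) +
      c6 * (s ^ 6 / (2 * Real.cosh (Real.pi * s))) := by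
    intro s
    have h1 : c0 * (s ^ 0 / (2 * Real.cosh (Real.pi * s))) +
      c2 * (s ^ 2 / (2 * Real.cosh (Real.pi * s))) + c4 * (s ^ 4 / (2 * Real.cosh (Real.pi * s))) +
      c6 * (s ^ 6 / (2 * Real.cosh (Real.pi * s))) =
      (c0 + c2 * s ^ 2 + c4 * s ^ 4 + c6 * s ^ 6) / (2 * Real.cosh (Real.pi * s)) := by ring
    rw [h1]
    exact div_le_div_of_nonneg_right (hf s) (two_cosh_pos s).le
  have hnn : ∀ s : ℝ, 0 ≤ f s / (2 * Real.cosh (Real.pi * s)) :=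
    fun s => div_nonneg (h0 s) (two_cosh_pos s).le
  rw [intervalIntegral.integral_of_le (by norm_num), ← hint]
  calc ∫ s in Ioc (-5 : ℝ) 5, f s / (2 * Real.cosh (Real.pi * s))
      ≤ ∫ s in Ioc (-5 : ℝ) 5, (c0 * (s ^ 0 / (2 * Real.cosh (Real.pi * s))) +
      c2 * (s ^ 2 / (2 * Real.cosh (Real.pi * s))) + c4 * (s ^ 4 / (2 * Real.cosh (Real.pi * s))) +
      c6 * (s ^ 6 / (2 * Real.cosh (Real.pi * s)))) := by
        apply integral_mono_of_nonneg
        · exact Eventually.of_forall hnn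
        · exact jg.integrableOn
        · exact Eventually.of_forall hle
    _ ≤ _ := by
        apply setIntegral_le_integral jg
        exact Eventually.of_forall fun s => (hnn s).trans (hle s)

theorem sg_sq (κ s : ℝ) : ‖sg κ s‖ ^ 2 = s ^ 2 + κ ^ 2 := by
  unfold sg
  rw [← Complex.normSq_eq_norm_sq, Complex.normSq_apply]
  simp
  ring

theorem bt_sq (κ ch s : ℝ) : ‖bt κ ch s‖ ^ 2 = s ^ 2 + (ch + κ) ^ 2 := by
  unfold bt
  rw [← Complex.normSq_eq_norm_sq, Complex.normSq_apply]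
  simp
  ring

theorem amgm {a l : ℝ} (hl : 0 < l) : a ≤ (a ^ 2 + l ^ 2) / (2 * l) := by
  rw [le_div_iff₀ (by positivity)]
  nlinarith [sq_nonneg (a - l)]

theorem amgm2 {a b n : ℝ} (hn : 0 < n) : a * b ≤ (a ^ 2 / n + n * b ^ 2) / 2 := by
  have h1 : a ^ 2 / n + n * b ^ 2 - 2 * (a * b) = (a - n * b) ^ 2 / n := by
    field_simp
    ring
  have h2 : 0 ≤ (a - n * b) ^ 2 / n := by positivity
  linarith

theorem Qf_nonneg {κ ch s : ℝ} (hκ : 0 ≤ κ) : 0 ≤ Qf κ ch s := by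
  unfold Qf
  have hp := Real.pi_pos
  positivity

theorem Qf_le {κ ch s : ℝ} (hκ : 0 ≤ κ) {l1 n2 n3 l4 l6 l7 l8 l9 l10 n12 l13 l14 A B u : ℝ}
    (g1 : 0 < l1) (g2 : 0 < n2) (g3 : 0 < n3) (g4 : 0 < l4) (g6 : 0 < l6) (g7 : 0 < l7)
    (g8 : 0 < l8) (g9 : 0 < l9) (g10 : 0 < l10) (g12 : 0 < n12) (g13 : 0 < l13) (g14 : 0 < l14)
    (hu : u = s ^ 2) (hA : A = u + κ ^ 2) (hB : B = u + (ch + κ) ^ 2) :
    Qf κ ch s ≤
      0.00305 * (5 * (((A + l1 ^ 2) / (2 * l1)) * B) + 2.2 * (κ * B + 2 * κ * ((A / n2 + n2 * B) / 2) +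
        3.1416 * (B * ((A / n3 + n3 * u) / 2)))) +
      0.0041 * (0.515 * (9.8697 * (((A + l4 ^ 2) / (2 * l4)) * B * u) +
        6.7 * (B * ((A / n3 + n3 * u) / 2)) + 1.2 * (((A + l1 ^ 2) / (2 * l1)) * B)) +
        1.06 * (3.1416 * (κ * (((u + l6 ^ 2) / (2 * l6)) * B) +
          2 * κ * (((A + l7 ^ 2) / (2 * l7)) * ((B + u) / 2)))) +
        1.03 * κ ^ 2 * (2 * ((B + l8 ^ 2) / (2 * l8)) + (A + l9 ^ 2) / (2 * l9))) +
      0.00042 * κ ^ 3 +
      (1 / 40) * (1.14 * (((A + l1 ^ 2) / (2 * l1)) * B) + 0.056 * κ * (B +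
        2 * ((A / n2 + n2 * B) / 2)) + 0.0042 * κ ^ 2 * (2 * ((B + l8 ^ 2) / (2 * l8)) +
        (A + l9 ^ 2) / (2 * l9)) + 0.00041 * κ ^ 3) +
      (1 / 50) * (1.14 * (((A + l10 ^ 2) / (2 * l10)) * B * A) + 0.056 * κ * (A * B +
        2 * (A * ((A / n12 + n12 * B) / 2))) + 0.0042 * κ ^ 2 * (2 * (A * ((B + l13 ^ 2) / (2 * l13))) +
        A * ((A + l14 ^ 2) / (2 * l14))) + 0.00041 * κ ^ 3 * A) := by
  have ea := sg_sq κ s
  have eb := bt_sq κ ch s
  have eS : |s| ^ 2 = s ^ 2 := sq_abs s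
  have ha : 0 ≤ ‖sg κ s‖ := norm_nonneg _
  have hbb : 0 ≤ ‖bt κ ch s‖ := norm_nonneg _
  have hS : 0 ≤ |s| := abs_nonneg s
  have hA' : A = ‖sg κ s‖ ^ 2 := by rw [hA, hu, ea]
  have hB' : B = ‖bt κ ch s‖ ^ 2 := by rw [hB, hu, eb]
  have hu' : u = |s| ^ 2 := by rw [hu, eS]
  clear hA hB hu ea eb
  unfold Qf
  simp only
  rw [← eS]
  generalize ‖sg κ s‖ = a at ha hA'
  generalize ‖bt κ ch s‖ = b at hbb hB'
  generalize |s| = S at hS hu'
  have hA0 : 0 ≤ A := by rw [hA']; positivity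
  have hB0 : 0 ≤ B := by rw [hB']; positivity
  have hu0 : 0 ≤ u := by rw [hu']; positivity
  have q1 : a * b ^ 2 ≤ ((A + l1 ^ 2) / (2 * l1)) * B := by
    rw [hB', hA']
    exact mul_le_mul_of_nonneg_right (amgm g1) (by positivity)
  have q2 : a * b ≤ (A / n2 + n2 * B) / 2 := by
    rw [hB', hA']
    exact amgm2 g2
  have q3 : a * b ^ 2 * S ≤ B * ((A / n3 + n3 * u) / 2) := by
    rw [hB', hA', hu']
    have := mul_le_mul_of_nonneg_left (amgm2 (a := a) (b := S) g3) (by positivity : 0 ≤ b ^ 2)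
    linarith
  have q4 : a * b ^ 2 * S ^ 2 ≤ ((A + l4 ^ 2) / (2 * l4)) * B * u := by
    rw [hB', hA', hu']
    exact mul_le_mul_of_nonneg_right (mul_le_mul_of_nonneg_right (amgm g4) (by positivity))
      (by positivity)
  have q6 : b ^ 2 * S ≤ ((u + l6 ^ 2) / (2 * l6)) * B := by
    rw [hB', hu', mul_comm]
    exact mul_le_mul_of_nonneg_right (amgm g6) (by positivity)
  have q7 : a * b * S ≤ ((A + l7 ^ 2) / (2 * l7)) * ((B + u) / 2) := by
    rw [hB', hA', hu', mul_assoc]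
    have : b * S ≤ (b ^ 2 + S ^ 2) / 2 := by nlinarith [sq_nonneg (b - S)]
    exact mul_le_mul (amgm g7) this (by positivity) (by positivity)
  have q8 : b ≤ (B + l8 ^ 2) / (2 * l8) := by
    rw [hB']; exact amgm g8
  have q9 : a ≤ (A + l9 ^ 2) / (2 * l9) := by
    rw [hA']; exact amgm g9
  have q10 : a * b ^ 2 * a ^ 2 ≤ ((A + l10 ^ 2) / (2 * l10)) * B * A := by
    rw [hB', hA']
    exact mul_le_mul_of_nonneg_right (mul_le_mul_of_nonneg_right (amgm g10) (by positivity))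
      (by positivity)
  have q12 : a ^ 2 * (a * b) ≤ A * ((A / n12 + n12 * B) / 2) := by
    rw [hB', hA']
    exact mul_le_mul_of_nonneg_left (amgm2 g12) (by positivity)
  have q13 : a ^ 2 * b ≤ A * ((B + l13 ^ 2) / (2 * l13)) := by
    rw [hB', hA']
    exact mul_le_mul_of_nonneg_left (amgm g13) (by positivity)
  have q14 : a ^ 2 * a ≤ A * ((A + l14 ^ 2) / (2 * l14)) := by
    rw [hA']
    exact mul_le_mul_of_nonneg_left (amgm g14) (by positivity)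
  generalize ((A + l1 ^ 2) / (2 * l1)) * B = R1 at q1 ⊢
  generalize (A / n2 + n2 * B) / 2 = R2 at q2 ⊢
  generalize B * ((A / n3 + n3 * u) / 2) = R3 at q3 ⊢
  generalize ((A + l4 ^ 2) / (2 * l4)) * B * u = R4 at q4 ⊢
  generalize ((u + l6 ^ 2) / (2 * l6)) * B = R6 at q6 ⊢
  generalize ((A + l7 ^ 2) / (2 * l7)) * ((B + u) / 2) = R7 at q7 ⊢
  generalize (B + l8 ^ 2) / (2 * l8) = R8 at q8 ⊢
  generalize (A + l9 ^ 2) / (2 * l9) = R9 at q9 ⊢
  generalize ((A + l10 ^ 2) / (2 * l10)) * B * A = R10 at q10 ⊢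
  generalize A * ((A / n12 + n12 * B) / 2) = R12 at q12 ⊢
  generalize A * ((B + l13 ^ 2) / (2 * l13)) = R13 at q13 ⊢
  generalize A * ((A + l14 ^ 2) / (2 * l14)) = R14 at q14 ⊢
  subst hA' hB' hu'
  have hp0 := Real.pi_pos
  have hp : Real.pi ≤ 3.1416 := by
    have := Real.pi_lt_d4
    linarith
  have hp2 : Real.pi ^ 2 ≤ 9.8697 := by
    calc Real.pi ^ 2 ≤ 3.1416 ^ 2 := pow_le_pow_left₀ hp0.le hp 2
      _ ≤ 9.8697 := by norm_num
  have r3 : Real.pi * (a * b ^ 2 * S) ≤ 3.1416 * R3 :=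
    mul_le_mul hp q3 (by positivity) (by norm_num)
  have r4 : Real.pi ^ 2 * (a * b ^ 2 * S ^ 2) ≤ 9.8697 * R4 :=
    mul_le_mul hp2 q4 (by positivity) (by norm_num)
  have r67' : κ * (b ^ 2 * S) + 2 * κ * (a * b * S) ≤ κ * R6 + 2 * κ * R7 :=
    add_le_add (mul_le_mul_of_nonneg_left q6 hκ) (mul_le_mul_of_nonneg_left q7 (by positivity))
  have r67 : Real.pi * (κ * (b ^ 2 * S) + 2 * κ * (a * b * S)) ≤
      3.1416 * (κ * R6 + 2 * κ * R7) :=
    mul_le_mul hp r67' (by positivity) (by norm_num)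
  have r2 : κ * (a * b) ≤ κ * R2 := mul_le_mul_of_nonneg_left q2 hκ
  have r89 : κ ^ 2 * (2 * b + a) ≤ κ ^ 2 * (2 * R8 + R9) :=
    mul_le_mul_of_nonneg_left (by linarith) (by positivity)
  have r12 : κ * (a ^ 2 * (a * b)) ≤ κ * R12 := mul_le_mul_of_nonneg_left q12 hκ
  have r1314 : κ ^ 2 * (2 * (a ^ 2 * b) + a ^ 2 * a) ≤ κ ^ 2 * (2 * R13 + R14) :=
    mul_le_mul_of_nonneg_left (by linarith) (by positivity)
  linarith

theorem qint (h : MomStatement) : QintStatement := by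
  intro κ ch e hc
  rcases hc with hc | hc | hc <;> obtain ⟨rfl, h2⟩ := Prod.mk.inj hc <;>
    obtain ⟨rfl, rfl⟩ := Prod.mk.inj h2
  · refine (int_poly_le h (c0 := 0.0046) (c2 := 0.0744) (c4 := 0.11) (c6 := 0.0127)
      (fun s => Qf_nonneg (by norm_num)) (fun s => ?_)).trans (by norm_num)
    refine (Qf_le (κ := 1 / 2) (ch := -3 / 10) (s := s) (by norm_num) (l1 := 1.15) (n2 := 1.3)
      (n3 := 1.1) (l4 := 1.8) (l6 := 1.05) (l7 := 1.2) (l8 := 0.55) (l9 := 0.7) (l10 := 1.7)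
      (n12 := 1.15) (l13 := 0.9) (l14 := 1) (by norm_num) (by norm_num) (by norm_num)
      (by norm_num) (by norm_num) (by norm_num) (by norm_num) (by norm_num) (by norm_num)
      (by norm_num) (by norm_num) (by norm_num) rfl rfl rfl).trans ?_
    rw [← sub_nonneg]
    ring_nf
    positivity
  · refine (int_poly_le h (c0 := 0.002) (c2 := 0.072) (c4 := 0.109) (c6 := 0.0125)
      (fun s => Qf_nonneg (by norm_num)) (fun s => ?_)).trans (by norm_num)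
    refine (Qf_le (κ := 1 / 2) (ch := -1 / 2) (s := s) (by norm_num) (l1 := 1.2) (n2 := 1.4)
      (n3 := 1.1) (l4 := 1.8) (l6 := 1.1) (l7 := 1.2) (l8 := 0.5) (l9 := 0.7) (l10 := 1.75)
      (n12 := 1.15) (l13 := 0.85) (l14 := 1) (by norm_num) (by norm_num) (by norm_num)
      (by norm_num) (by norm_num) (by norm_num) (by norm_num) (by norm_num) (by norm_num)
      (by norm_num) (by norm_num) (by norm_num) rfl rfl rfl).trans ?_
    rw [← sub_nonneg]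
    ring_nf
    positivity
  · refine (int_poly_le h (c0 := 0.109) (c2 := 0.36) (c4 := 0.173) (c6 := 0.011)
      (fun s => Qf_nonneg (by norm_num)) (fun s => ?_)).trans (by norm_num)
    refine (Qf_le (κ := 3 / 2) (ch := -1) (s := s) (by norm_num) (l1 := 1.75) (n2 := 2.25)
      (n3 := 2) (l4 := 2.25) (l6 := 0.85) (l7 := 1.8) (l8 := 0.7) (l9 := 1.6) (l10 := 1.85)
      (n12 := 2.1) (l13 := 0.75) (l14 := 1.6) (by norm_num) (by norm_num) (by norm_num)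
      (by norm_num) (by norm_num) (by norm_num) (by norm_num) (by norm_num) (by norm_num)
      (by norm_num) (by norm_num) (by norm_num) rfl rfl rfl).trans ?_
    rw [← sub_nonneg]
    ring_nf
    positivity

end Pool.Agent.Helper21_UR.H15
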