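import Pool.Agent.Helper21_UR.Stmts

/-!
# Module SECH: Fourier transform of the hyperbolic secant, by the Beta integral
-/

namespace Pool.Agent.Helper21_UR.H15

open Complex MeasureTheory Set

/-- the change of variables -/
noncomputable def sf (s : ℝ) : ℝ := (1 + Real.exp (-(2 * Real.pi * s)))⁻¹

noncomputable def lc (s : ℝ) : ℝ := Real.log (2 * Real.cosh (Real.pi * s))

theorem exp_lc (s : ℝ) : Real.exp (lc s) = 2 * Real.cosh (Real.pi * s) := by
  unfold lc
  rw [Real.exp_log]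
  have := Real.cosh_pos (Real.pi * s)
  positivity

theorem sf_eq (s : ℝ) : sf s = Real.exp (Real.pi * s - lc s) := by
  unfold sf
  rw [Real.exp_sub, exp_lc, Real.cosh_eq, inv_eq_one_div, div_eq_div_iff (by positivity) (by positivity)]
  have h : Real.exp (-(2 * Real.pi * s)) * Real.exp (Real.pi * s) = Real.exp (-(Real.pi * s)) := by
    rw [← Real.exp_add]; congr 1; ring
  linear_combination -h

theorem one_sub_sf_eq (s : ℝ) : 1 - sf s = Real.exp (-(Real.pi * s) - lc s) := by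
  have h1 : sf s * (1 + Real.exp (-(2 * Real.pi * s))) = 1 := by
    unfold sf
    exact inv_mul_cancel₀ (by positivity)
  have h2 : 1 - sf s = sf s * Real.exp (-(2 * Real.pi * s)) := by linear_combination -h1
  rw [h2, sf_eq, ← Real.exp_add]
  congr 1
  ring

theorem sf_pos (s : ℝ) : 0 < sf s := by
  rw [sf_eq]; exact Real.exp_pos _

theorem sf_lt_one (s : ℝ) : sf s < 1 := by
  have := one_sub_sf_eq s
  have h2 := Real.exp_pos (-(Real.pi * s) - lc s)
  linarith

theorem sf_deriv (s : ℝ) : HasDerivAt sf (2 * Real.pi * (sf s * (1 - sf s))) s := by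
  have h1 : HasDerivAt (fun s : ℝ => 1 + Real.exp (-(2 * Real.pi * s)))
      (Real.exp (-(2 * Real.pi * s)) * (-(2 * Real.pi))) s := by
    have h2 : HasDerivAt (fun s : ℝ => -(2 * Real.pi * s)) (-(2 * Real.pi)) s := by
      have h5 := ((hasDerivAt_id s).const_mul (2 * Real.pi)).neg
      rw [mul_one] at h5
      exact h5
    exact h2.exp.const_add 1
  have h3 : (1 + Real.exp (-(2 * Real.pi * s))) ≠ 0 := by positivity
  have h4 := h1.inv h3
  refine h4.congr_deriv ?_
  unfold sf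
  field_simp
  ring

theorem sf_inj : Function.Injective sf := by
  intro a b h
  unfold sf at h
  rw [inv_inj, add_right_inj, Real.exp_eq_exp, neg_inj] at h
  have hpi := Real.pi_pos
  exact mul_left_cancel₀ (by positivity) h

theorem sf_image : sf '' univ = Ioo 0 1 := by
  apply Subset.antisymm
  · rintro _ ⟨s, _, rfl⟩
    exact ⟨sf_pos s, sf_lt_one s⟩
  · intro y hy
    refine ⟨-(Real.log (y⁻¹ - 1)) / (2 * Real.pi), mem_univ _, ?_⟩
    have hpi := Real.pi_pos
    have h1 : 1 < y⁻¹ := (one_lt_inv₀ hy.1).mpr hy.2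
    unfold sf
    have h2 : -(2 * Real.pi * (-(Real.log (y⁻¹ - 1)) / (2 * Real.pi))) = Real.log (y⁻¹ - 1) := by
      field_simp
    rw [h2, Real.exp_log (by linarith)]
    simp

theorem cpow_exp (y : ℝ) (w : ℂ) : ((Real.exp y : ℝ) : ℂ) ^ w = cexp (y * w) := by
  have h0 : ((Real.exp y : ℝ) : ℂ) ≠ 0 := by
    exact_mod_cast (Real.exp_pos y).ne'
  rw [Complex.cpow_def_of_ne_zero h0, ← Complex.ofReal_log (Real.exp_pos y).le, Real.log_exp]

theorem beta_eq (x : ℝ) : betaIntegral (1 / 2 - I * x / (2 * Real.pi)) (1 / 2 + I * x / (2 * Real.pi)) =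
    (2 * Real.pi : ℂ) * ∫ s : ℝ, cexp (-(I * x * s)) / (2 * cosh ((Real.pi : ℂ) * s)) := by
  unfold betaIntegral
  rw [intervalIntegral.integral_of_le zero_le_one, integral_Ioc_eq_integral_Ioo, ← sf_image,
    integral_image_eq_integral_abs_deriv_smul MeasurableSet.univ
      (fun s _ => (sf_deriv s).hasDerivWithinAt) sf_inj.injOn, Measure.restrict_univ,
    ← integral_const_mul]
  congr 1
  funext s
  have hpi : (Real.pi : ℂ) ≠ 0 := by exact_mod_cast Real.pi_ne_zero
  have h1 := sf_pos s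
  have h2 : 0 < 1 - sf s := by linarith [sf_lt_one s]
  have hpp := Real.pi_pos
  have e2 : (1 - (sf s : ℂ)) = ((1 - sf s : ℝ) : ℂ) := by push_cast; ring
  rw [abs_of_pos (by positivity), e2, Complex.real_smul]
  have e3 : (2 * cosh ((Real.pi : ℂ) * s)) = ((Real.exp (lc s) : ℝ) : ℂ) := by
    rw [exp_lc]
    push_cast
    rfl
  rw [e3]
  rw [Complex.ofReal_mul, Complex.ofReal_mul (sf s), one_sub_sf_eq, sf_eq, cpow_exp, cpow_exp,
    Complex.ofReal_exp, Complex.ofReal_exp, Complex.ofReal_exp,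
    div_eq_mul_inv (cexp (-(I * x * s))) (cexp (lc s : ℂ)), ← Complex.exp_neg]
  have e4 : cexp ((Real.pi * s - lc s : ℝ) : ℂ) * cexp ((-(Real.pi * s) - lc s : ℝ) : ℂ) *
      (cexp (((Real.pi * s - lc s : ℝ) : ℂ) * (1 / 2 - I * x / (2 * Real.pi) - 1)) *
        cexp (((-(Real.pi * s) - lc s : ℝ) : ℂ) * (1 / 2 + I * x / (2 * Real.pi) - 1))) =
      cexp (-(I * x * s)) * cexp (-(lc s : ℂ)) := by
    rw [← Complex.exp_add, ← Complex.exp_add, ← Complex.exp_add, ← Complex.exp_add]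
    congr 1
    push_cast
    field_simp
    ring
  rw [mul_assoc, e4]
  push_cast
  ring

theorem sech : SechStatement := by
  intro x
  have hpi : (Real.pi : ℂ) ≠ 0 := by exact_mod_cast Real.pi_ne_zero
  have hpp := Real.pi_pos
  have hre1 : (I * x / (2 * Real.pi) : ℂ).re = 0 := by
    have : (I * x / (2 * Real.pi) : ℂ) = ((x / (2 * Real.pi) : ℝ) : ℂ) * I := by
      push_cast; ring
    rw [this, Complex.re_ofReal_mul, Complex.I_re, mul_zero]
  have h1 : 0 < (1 / 2 - I * x / (2 * Real.pi) : ℂ).re := by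
    rw [Complex.sub_re, hre1]; norm_num
  have h2 : 0 < (1 / 2 + I * x / (2 * Real.pi) : ℂ).re := by
    rw [Complex.add_re, hre1]; norm_num
  have h3 := Gamma_mul_Gamma_eq_betaIntegral h1 h2
  have e1 : (1 / 2 - I * x / (2 * Real.pi) : ℂ) + (1 / 2 + I * x / (2 * Real.pi)) = 1 := by ring
  have e2 : (1 / 2 + I * x / (2 * Real.pi) : ℂ) = 1 - (1 / 2 - I * x / (2 * Real.pi)) := by ring
  rw [e1, Gamma_one, one_mul, beta_eq] at h3
  rw [e2, Gamma_mul_Gamma_one_sub] at h3
  have e3 : Complex.sin ((Real.pi : ℂ) * (1 / 2 - I * x / (2 * Real.pi))) = cosh (x / 2) := by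
    have e4 : (Real.pi : ℂ) * (1 / 2 - I * x / (2 * Real.pi)) = (Real.pi : ℂ) / 2 - (x / 2) * I := by
      field_simp
    rw [e4, Complex.sin_pi_div_two_sub, Complex.cos_mul_I]
  rw [e3] at h3
  have hc : (cosh ((x : ℂ) / 2)) ≠ 0 := by
    have : (cosh ((x : ℂ) / 2)) = ((Real.cosh (x / 2) : ℝ) : ℂ) := by push_cast; rfl
    rw [this]
    exact_mod_cast (Real.cosh_pos _).ne'
  have h4 : ∫ s : ℝ, cexp (-(I * x * s)) / (2 * cosh ((Real.pi : ℂ) * s)) =
      1 / (2 * cosh ((x : ℂ) / 2)) := by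
    have h5 : (2 * Real.pi : ℂ) ≠ 0 := mul_ne_zero two_ne_zero hpi
    apply mul_left_cancel₀ h5
    rw [← h3]
    field_simp
  rw [h4]
  push_cast
  rfl

end Pool.Agent.Helper21_UR.H15
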